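import Pool.Agent.K7.H74.AG.Stm

/-! # Project AG, jobs SALL and TALL -/

set_option autoImplicit false

open MeasureTheory Finset

namespace Pool.Agent.K7.H46.AG

open Pool.Agent.K7.H74.AG

theorem meas_SS (hM : StMeas) (k t i : ℕ) (δ : ℝ) : MeasurableSet {a : Fin t → ℝ | SS k t i δ a} := by
  simp only [SS, Set.ofPred_exists, Set.ofPred_forall]
  refine MeasurableSet.iUnion fun C => MeasurableSet.iInter fun b => MeasurableSet.iInter fun _ =>
    MeasurableSet.iInter fun J => MeasurableSet.iInter fun l => MeasurableSet.iInter fun _ =>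
    MeasurableSet.iInter fun _ => ?_
  exact hM.2.2.2.2.2.1 k t b l _

theorem meas_TT (hM : StMeas) (k j : ℕ) (δ ε η : ℝ) :
    MeasurableSet {a : Fin (k + j) → ℝ | TT k j δ ε η a} := by
  simp only [TT, Set.ofPred_exists, Set.ofPred_forall]
  refine MeasurableSet.iUnion fun C => MeasurableSet.iInter fun b => MeasurableSet.iInter fun _ =>
    MeasurableSet.iInter fun J => MeasurableSet.iInter fun l => MeasurableSet.iInter fun _ =>
    MeasurableSet.iInter fun _ => ?_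
  exact hM.2.2.2.2.2.2.1 k (k + j) b η l _

theorem meas_LL (hM : StMeas) (k j : ℕ) (δ ε η : ℝ) :
    MeasurableSet {a : Fin (k + j) → ℝ | LL k j δ ε η a} := by
  simp only [LL, Set.ofPred_exists, Set.ofPred_forall]
  refine MeasurableSet.iUnion fun C => MeasurableSet.iInter fun b => MeasurableSet.iInter fun _ =>
    MeasurableSet.iInter fun J => MeasurableSet.iInter fun l => MeasurableSet.iInter fun _ =>
    MeasurableSet.iInter fun _ => ?_
  exact hM.2.2.2.2.2.2.2 k (k + j) b η l _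

theorem pos_of {m : ℕ} (hm : 1 ≤ m) {β : ℝ} (h : β ∈ Set.Icc (1 / (m : ℝ)) m) : 0 < β := by
  have : (0 : ℝ) < m := by exact_mod_cast hm
  exact lt_of_lt_of_le (by positivity) h.1

theorem cond_mono {δ δ' : ℝ} {C J l j : ℕ} (hd : δ' ≤ δ)
    (h : (C : ℝ) * ((3 : ℝ) ^ J) ^ ((j : ℝ) - δ') ≤ 2 ^ l) :
    (C : ℝ) * ((3 : ℝ) ^ J) ^ ((j : ℝ) - δ) ≤ 2 ^ l := by
  refine le_trans (mul_le_mul_of_nonneg_left ?_ (Nat.cast_nonneg C)) h
  exact Real.rpow_le_rpow_of_exponent_le (one_le_pow₀ (by norm_num)) (by linarith)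

theorem TT_mono {k j : ℕ} {δ δ' ε η : ℝ} {a : Fin (k + j) → ℝ} (hd : δ' ≤ δ)
    (h : TT k j δ ε η a) : TT k j δ' ε η a := by
  obtain ⟨C, h⟩ := h
  exact ⟨C, fun b hb J l hJ hl => h b hb J l hJ (cond_mono hd hl)⟩

theorem LL_mono {k j : ℕ} {δ δ' ε η : ℝ} {a : Fin (k + j) → ℝ} (hd : δ' ≤ δ)
    (h : LL k j δ ε η a) : LL k j δ' ε η a := by
  obtain ⟨C, h⟩ := h
  exact ⟨C, fun b hb J l hJ hl => h b hb J l hJ (cond_mono hd hl)⟩

theorem sall (_hSplit : StSplit) (hM : StMeas) (hAe : StAe) (hPle : StPle) (hB : StSbase)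
    (hSc : StScale) (hSt : StSstep) : StS := by
  intro k t
  induction t with
  | zero =>
    intro i m δ hk _ hδ _
    exact Filter.Eventually.of_forall fun a => (hB k i δ hk hδ).2 a
  | succ t ih =>
    intro i m δ' hk hm hδ' hδ1
    cases i with
    | zero => exact Filter.Eventually.of_forall fun a => (hB k 0 δ' hk hδ').1 (t + 1) a
    | succ i =>
      obtain ⟨δ, hδ, hδl, hstep⟩ := hSt k t i δ' hk hδ' hδ1
      refine hAe.1 m t (fun a => SS k (t + 1) (i + 1) δ' a) (meas_SS hM k (t + 1) (i + 1) δ') ?_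
      filter_upwards [ih i m δ hk hm hδ hδl, ih (i + 1) m δ hk hm hδ hδl] with a h1 h2
      filter_upwards [hPle k t m δ 1 hk hm hδ le_rfl a, ae_restrict_mem measurableSet_Icc]
        with β h3 h4
      exact hSc k (t + 1) (i + 1) δ' hk hδ' hδ1 _ (hstep a β (pos_of hm h4) h1 h2 h3.1)

theorem tall (hTb : StTbase) (hTs : StTstep) (hLs : StLstep) (hS : StS) (hPle : StPle)
    (hAe : StAe) (hM : StMeas) : StT := by
  intro k j m ε hk hj hm
  induction j, hj using Nat.le_induction generalizing ε with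
  | base =>
    intro hε
    exact ⟨1, one_pos, fun η h1 h2 => hTb k m ε η hk hm hε h1 h2⟩
  | succ j hj ih =>
    intro hε'
    obtain ⟨ε1, δs1, hε1, hδs1, hδs1', hT1⟩ := hTs k j m ε hk hj hm hε'
    obtain ⟨ε2, δs2, hε2, hδs2, hδs2', hL2⟩ := hLs k j m ε hk hj hm hε'
    obtain ⟨δ1, hδ1, hI1⟩ := ih ε1 hε1
    obtain ⟨δ2, hδ2, hI2⟩ := ih ε2 hε2
    obtain ⟨δ1', hδ1', hT⟩ := hT1 δ1 hδ1
    obtain ⟨δ2', hδ2', hL⟩ := hL2 δ2 hδ2
    have hmin : 0 < min δ1' δ2' := lt_min hδ1' hδ2'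
    refine ⟨min δ1' δ2', hmin, fun η h1 h2 => ?_⟩
    have hA : ∀ᵐ a ∂(cub m (k + (j + 1))), TT k (j + 1) δ1' ε η a := by
      refine hAe.1 m (k + j) (fun a => TT k (j + 1) δ1' ε η a) (meas_TT hM k (j + 1) δ1' ε η) ?_
      filter_upwards [hI1 η h1 h2, hS k (k + j) (j + 1) m δs1 hk hm hδs1 hδs1', hAe.2.2.1 m (k + j)]
        with a h3 h4 h4'
      filter_upwards [hPle k (k + j) m δs1 η hk hm hδs1 h2 a, ae_restrict_mem measurableSet_Icc]
        with β h5 h6
      exact hT η a β h1 h2 h4' h6.1 h6.2 h3.1 h4 h5.2.1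
    have hB : ∀ᵐ a ∂(cub m (k + (j + 1))), LL k (j + 1) δ2' ε η a := by
      refine hAe.1 m (k + j) (fun a => LL k (j + 1) δ2' ε η a) (meas_LL hM k (j + 1) δ2' ε η) ?_
      filter_upwards [hI2 η h1 h2, hAe.2.2.1 m (k + j)] with a h3 h4'
      filter_upwards [hPle k (k + j) m δs2 η hk hm hδs2 h2 a, ae_restrict_mem measurableSet_Icc]
        with β h5 h6
      exact hL η a β h1 h2 h4' h6.1 h6.2 h3.2 h5.2.2
    filter_upwards [hA, hB] with a h3 h4
    exact ⟨TT_mono (min_le_left _ _) h3, LL_mono (min_le_right _ _) h4⟩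

end Pool.Agent.K7.H46.AG
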